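import Mathlib
import Pool.Agent.MP_36f78e_lc.H24.Cl.Defs
import Pool.Agent.MP_36f78e_lc.H44.Defs
import Pool.Agent.MP_36f78e_lc.H44.Main

namespace Pool.Agent.Results.MP_36f78e_lc.ClassicalMessages

open Pool.Agent.MP_36f78e_lc.H24.Cl Pool.Agent.MP_36f78e_lc.H44

/-- Relative to a classical oracle there is a language such that membership and non-membership
both have subset-state witnesses accepted with certainty by a two-query verifier, while no
interactive proof with a quantum verifier and classical messages, from a given countable list of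
families of subexponential cost, accepts the language. -/
theorem result (V : ℕ → List Bool → Protocol) (hu : ∀ k x, (V k x).Valid)
    (hc : ∀ k, ∃ N, ∀ x : List Bool, N ≤ x.length → Nat.log 2 (V k x).cost ^ 33 ≤ x.length) :
    ∃ (A : List Bool → Bool) (L : Set (List Bool)),
      (∀ n, (test n).Valid) ∧
      (∀ x ∈ L,
        (∃ S : Finset (Fin x.length → Bool), S.Nonempty ∧
          (test x.length).accProb (fun s => A (false :: s)) (subsetState S) = 1) ∧
        ∀ w, IsState w → (test x.length).accProb (fun s => A (true :: s)) w ≤ 1 / 3) ∧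
      (∀ x ∉ L,
        (∃ S : Finset (Fin x.length → Bool), S.Nonempty ∧
          (test x.length).accProb (fun s => A (true :: s)) (subsetState S) = 1) ∧
        ∀ w, IsState w → (test x.length).accProb (fun s => A (false :: s)) w ≤ 1 / 3) ∧
      ∀ k, ¬ ∀ x : List Bool,
        (x ∈ L → ∃ P, 2 / 3 ≤ (V k x).accProb A P) ∧
        (x ∉ L → ∀ P, (V k x).accProb A P ≤ 1 / 3) := by
  obtain ⟨A, hA, hw⟩ := diag V hu hc
  refine ⟨A, {x | Side A x.length false}, test_valid,
    fun x hx => ⟨⟨_, hx.1.1, test_yes hx.1 _ rfl⟩, test_rej hx.2⟩, fun x hx => ?_, fun k h => ?_⟩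
  · have h1 := (hA _).resolve_left hx
    exact ⟨⟨_, h1.1.1, test_yes h1.1 _ rfl⟩, test_rej h1.2⟩
  · obtain ⟨x, ⟨h1, h2⟩ | ⟨h1, h2⟩⟩ := hw k
    · obtain ⟨P, hP⟩ := (h x).1 h1
      exact absurd (hP.trans (accProb_le_value _ _ P)) (not_le.2 h2)
    · obtain ⟨P, hP⟩ := exists_prover (V k x) A
      exact absurd (hP.trans ((h x).2 (fun h3 => not_yes_of_rej h1.2 h3.1) P)) (not_le.2 h2)

end Pool.Agent.Results.MP_36f78e_lc.ClassicalMessages
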