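import Pool.Agent.MP_36f78e_lc.H46.Main
import Pool.Agent.MP_36f78e_lc.H46.Gap
import Pool.Agent.MP_36f78e_lc.H46.Exp
import Pool.Agent.MP_36f78e_lc.H46.Lab
import Pool.Agent.MP_36f78e_lc.H46.Tail
import Pool.Agent.MP_36f78e_lc.H46.Bad
import Pool.Agent.MP_36f78e_lc.H46.PE
import Pool.Agent.MP_36f78e_lc.H46.Tan
import Pool.Agent.MP_36f78e_lc.H46.Code
import Pool.Agent.MP_36f78e_lc.H46.Cheb
import Pool.Agent.MP_36f78e_lc.H46.Heis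
import Pool.Agent.MP_36f78e_lc.H46.Big
import Pool.Agent.MP_36f78e_lc.H46.Comp
import Pool.Agent.MP_36f78e_lc.H46.Stab
import Pool.Agent.MP_36f78e_lc.H46.Cone

/-! Local Hamiltonians without low-energy states of the form shallow circuit after Clifford. -/

namespace Pool.Agent.Results.MP_36f78e_lc.NLTM

open Matrix Pool.Agent.MP_36f78e_lc.H46
open scoped ComplexOrder

theorem result :
    ∃ (k : ℕ) (ε c : ℝ), 0 < ε ∧ 0 < c ∧ ∀ n₀ : ℕ, ∃ n : ℕ, n₀ ≤ n ∧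
      ∃ (M : ℕ) (h : Fin M → Op (Fin n)) (S : Fin M → Finset (Fin n)), M ≤ n ∧
        (∀ j, (S j).card ≤ k ∧ ActsOn (S j) (h j) ∧ (h j).PosSemidef ∧ (1 - h j).PosSemidef) ∧
        (∀ q, (Finset.univ.filter fun j => q ∈ S j).card ≤ k) ∧
        (∃ ψ₀ : St (Fin n), ψ₀ ≠ 0 ∧ ∀ j, h j *ᵥ ψ₀ = 0) ∧
        ∀ (a t d : ℕ) (ψ : St (Fin n ⊕ Fin a)) (U : Op (Fin n ⊕ Fin a)), Prep t ψ →
          HasDepth d U → (16 : ℝ) ^ d ≤ c * n → (4 : ℝ) ^ d * t ≤ c * n →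
          ε * n ≤ ∑ j, (star (U *ᵥ ψ) ⬝ᵥ (withAnc (Fin a) (h j) *ᵥ (U *ᵥ ψ))).re :=
  main (code_of (exp_of gap) (pe_of surj (bad tail)) tan lab) four_ok (big cheb side heis) prep
    cone comp stab

end Pool.Agent.Results.MP_36f78e_lc.NLTM
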